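import Pool.Agent.Y671.GL.Spec
import Pool.Agent.W688.SD.SFour
import Pool.Agent.W368.SD.SMo

set_option autoImplicit false

/-!
# Task MO: from Euler products to the mollifier (project GD2 of helper671)
-/

namespace Pool.Agent.Y494.GL

open Complex Filter Topology MeasureTheory Set
open scoped ComplexConjugate
open Pool.Agent.H24R2.DZ (ph SFour)
open Pool.Agent.Y671.GL
open Pool.Agent.W368.SD (ss rho rho_pos rho_int rho_cont rho_mul cs FT cpow_cont cpow_norm_le ss_re)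

variable {θ W : ℝ} {z : ℂ} {w : ℝ → ℂ}

lemma phi_eq (L : ℝ) (hL : 1 ≤ L) (hθ : 0 < θ) (β : ℂ) (h : FT θ (L * β) W w) (m : ℕ)
    (hm : 1 ≤ m) : ((ph (Real.log m / (θ * L)) : ℝ) : ℂ) * (m : ℂ) ^ (-β) =
      ∫ τ, w τ * (m : ℂ) ^ (-ss L τ) := by
  have hL0 : 0 < L := by linarith
  have hLC : (L : ℂ) ≠ 0 := by exact_mod_cast hL0.ne'
  have hm0 : (m : ℂ) ≠ 0 := by exact_mod_cast (by omega : m ≠ 0)
  have hu : 0 ≤ Real.log m / L := div_nonneg (Real.log_natCast_nonneg m) hL0.le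
  have h1 := h.eq _ hu
  have e1 : Real.log m / (θ * L) = Real.log m / L / θ := by
    field_simp
  have e2 : (m : ℂ) ^ (-β) = cexp (-(L * β * ((Real.log m / L : ℝ) : ℂ))) := by
    rw [cpow_def_of_ne_zero hm0, Complex.natCast_log.symm]
    congr 1
    push_cast
    field_simp
  have e3 : ∀ τ : ℝ, (m : ℂ) ^ (-ss L τ) = cexp (-((1 + I * τ) * ((Real.log m / L : ℝ) : ℂ))) := by
    intro τ
    rw [cpow_def_of_ne_zero hm0, Complex.natCast_log.symm]
    congr 1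
    unfold ss
    push_cast
    field_simp
  simp only [e3]
  rw [← h1, e1, e2]

/-- Cauchy-Schwarz. -/
lemma csw (h : FT θ z W w) (g : ℝ → ℂ) (hg : Continuous g) (K : ℝ) (hK : ∀ τ, ‖g τ‖ ≤ K) :
    ‖∫ τ, w τ * g τ‖ ^ 2 ≤ W ^ 2 * ((∫ τ, rho 2 τ) * ∫ τ, rho 18 τ * ‖g τ‖ ^ 2) := by
  have hK0 : 0 ≤ K := (norm_nonneg _).trans (hK 0)
  have i1 : ∀ r : ℝ, 1 < r → ∀ k : ℕ, Integrable fun τ => rho r τ * ‖g τ‖ ^ k := by
    intro r hr k
    refine Integrable.mono' ((rho_int r hr).mul_const (K ^ k))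
      ((rho_cont r).mul (hg.norm.pow k)).aestronglyMeasurable
      (Eventually.of_forall fun τ => ?_)
    rw [norm_mul, Real.norm_of_nonneg (rho_pos r τ).le, norm_pow, norm_norm]
    exact mul_le_mul_of_nonneg_left (pow_le_pow_left₀ (norm_nonneg _) (hK τ) k) (rho_pos r τ).le
  have e10 : ∀ τ, rho 2 τ * (rho 8 τ * ‖g τ‖) = rho 10 τ * ‖g τ‖ := by
    intro τ
    rw [← mul_assoc]
    congr 1
    unfold rho
    rw [← Real.rpow_add (by positivity)]
    norm_num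
  have e18 : ∀ τ, rho 2 τ * (rho 8 τ * ‖g τ‖) ^ 2 = rho 18 τ * ‖g τ‖ ^ 2 := by
    intro τ
    rw [mul_pow, ← mul_assoc]
    congr 1
    unfold rho
    rw [← Real.rpow_natCast ((1 + |τ|) ^ (-8 : ℝ)), ← Real.rpow_mul (by positivity),
      ← Real.rpow_add (by positivity)]
    norm_num
  have h1 : Integrable fun τ => rho 10 τ * ‖g τ‖ := by simpa using i1 10 (by norm_num) 1
  have h2 : ‖∫ τ, w τ * g τ‖ ≤ W * ∫ τ, rho 10 τ * ‖g τ‖ := by
    rw [← integral_const_mul]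
    refine norm_integral_le_of_norm_le (h1.const_mul W) (Eventually.of_forall fun τ => ?_)
    rw [norm_mul]
    calc ‖w τ‖ * ‖g τ‖ ≤ (W * rho 10 τ) * ‖g τ‖ :=
          mul_le_mul_of_nonneg_right (h.bd τ) (norm_nonneg _)
      _ = W * (rho 10 τ * ‖g τ‖) := by ring
  have h3 := cs (rho 2) (fun τ => rho 8 τ * ‖g τ‖) (fun τ => (rho_pos 2 τ).le)
    (rho_int 2 (by norm_num)) (by simp only [e10]; exact h1)
    (by simp only [e18]; exact i1 18 (by norm_num) 2)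
  simp only [e10, e18] at h3
  have h4 : 0 ≤ ∫ τ, rho 10 τ * ‖g τ‖ :=
    integral_nonneg fun τ => mul_nonneg (rho_pos _ τ).le (norm_nonneg _)
  calc ‖∫ τ, w τ * g τ‖ ^ 2 ≤ (W * ∫ τ, rho 10 τ * ‖g τ‖) ^ 2 :=
        pow_le_pow_left₀ (norm_nonneg _) h2 2
    _ = W ^ 2 * (∫ τ, rho 10 τ * ‖g τ‖) ^ 2 := by ring
    _ ≤ _ := mul_le_mul_of_nonneg_left h3 (sq_nonneg _)

/-- The sum of squares of such integrals. -/
lemma sumw {ι : Type*} (s : Finset ι) (h : FT θ z W w) (a : ι → ℝ) (ha : ∀ i ∈ s, 0 ≤ a i)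
    (g : ι → ℝ → ℂ) (hg : ∀ i ∈ s, Continuous (g i)) (K : ι → ℝ) (hK : ∀ i ∈ s, ∀ τ, ‖g i τ‖ ≤ K i)
    (C : ℝ) (hC : ∀ τ : ℝ, ∑ i ∈ s, a i * ‖g i τ‖ ^ 2 ≤ C * (1 + |τ|) ^ 16) :
    ∑ i ∈ s, a i * ‖∫ τ, w τ * g i τ‖ ^ 2 ≤ W ^ 2 * ((∫ τ, rho 2 τ) * (C * ∫ τ, rho 2 τ)) := by
  have i1 : ∀ i ∈ s, Integrable fun τ => a i * (rho 18 τ * ‖g i τ‖ ^ 2) := by
    intro i hi
    refine Integrable.const_mul ?_ _
    refine Integrable.mono' ((rho_int 18 (by norm_num)).mul_const (K i ^ 2))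
      ((rho_cont 18).mul ((hg i hi).norm.pow 2)).aestronglyMeasurable
      (Eventually.of_forall fun τ => ?_)
    rw [norm_mul, Real.norm_of_nonneg (rho_pos 18 τ).le, norm_pow, norm_norm]
    exact mul_le_mul_of_nonneg_left (pow_le_pow_left₀ (norm_nonneg _) (hK i hi τ) 2) (rho_pos 18 τ).le
  have hK0 : 0 ≤ ∫ τ, rho 2 τ := integral_nonneg fun τ => (rho_pos 2 τ).le
  calc ∑ i ∈ s, a i * ‖∫ τ, w τ * g i τ‖ ^ 2
      ≤ ∑ i ∈ s, a i * (W ^ 2 * ((∫ τ, rho 2 τ) * ∫ τ, rho 18 τ * ‖g i τ‖ ^ 2)) :=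
        Finset.sum_le_sum fun i hi => mul_le_mul_of_nonneg_left
          (csw h (g i) (hg i hi) (K i) (hK i hi)) (ha i hi)
    _ = W ^ 2 * ((∫ τ, rho 2 τ) * ∑ i ∈ s, ∫ τ, a i * (rho 18 τ * ‖g i τ‖ ^ 2)) := by
        rw [Finset.mul_sum, Finset.mul_sum]
        refine Finset.sum_congr rfl fun i _ => ?_
        rw [integral_const_mul]
        ring
    _ = W ^ 2 * ((∫ τ, rho 2 τ) * ∫ τ, ∑ i ∈ s, a i * (rho 18 τ * ‖g i τ‖ ^ 2)) := by
        rw [integral_finsetSum _ i1]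
    _ ≤ _ := by
        refine mul_le_mul_of_nonneg_left (mul_le_mul_of_nonneg_left ?_ hK0) (sq_nonneg _)
        rw [← integral_const_mul]
        refine integral_mono (integrable_finsetSum _ i1)
          ((rho_int 2 (by norm_num)).const_mul C) fun τ => ?_
        show ∑ i ∈ s, a i * (rho 18 τ * ‖g i τ‖ ^ 2) ≤ C * rho 2 τ
        calc ∑ i ∈ s, a i * (rho 18 τ * ‖g i τ‖ ^ 2) = rho 18 τ * ∑ i ∈ s, a i * ‖g i τ‖ ^ 2 := by
              rw [Finset.mul_sum]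
              exact Finset.sum_congr rfl fun i _ => by ring
          _ ≤ rho 18 τ * (C * (1 + |τ|) ^ 16) := mul_le_mul_of_nonneg_left (hC τ) (rho_pos 18 τ).le
          _ = C * (rho 18 τ * (1 + |τ|) ^ 16) := by ring
          _ = C * rho 2 τ := by
              rw [rho_mul 18 16]
              norm_num

lemma mf_zero (ps lam : ℕ → ℂ) : mf ps lam 0 = 0 := by unfold mf; simp

lemma bq_eq (L : ℝ) (hL : 1 ≤ L) (hθ : 0 < θ) (β : ℂ) (h : FT θ (L * β) W w) (ps lam : ℕ → ℂ)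
    (m : ℕ) (hm : 1 ≤ m) : bq ps lam θ L β m = ∫ τ, w τ * (mf ps lam m * (m : ℂ) ^ (-ss L τ)) := by
  unfold bq
  rw [mul_assoc, phi_eq L hL hθ β h m hm, ← integral_const_mul]
  refine integral_congr_ae (Eventually.of_forall fun τ => ?_)
  show _ * (w τ * _) = w τ * (_ * _)
  ring

lemma bq_zero_of (L : ℝ) (hL : 1 ≤ L) (hθ : 0 < θ) (β : ℂ) (ps lam : ℕ → ℂ) (y h : ℕ)
    (hy : Real.exp (θ * L) ≤ y) (hh : y < h) : bq ps lam θ L β h = 0 := by
  have hL0 : 0 < L := by linarith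
  unfold bq ph
  have h1 : 1 ≤ Real.log h / (θ * L) := by
    rw [le_div_iff₀ (by positivity), one_mul]
    have h2 : Real.exp (θ * L) ≤ (h : ℝ) := hy.trans (by exact_mod_cast hh.le)
    rw [Real.le_log_iff_exp_le (by linarith [Real.exp_pos (θ * L)])]
    exact h2
  rw [Real.smoothTransition.zero_of_nonpos (by linarith)]
  simp

/-- The weight bound in the shape of the claim. -/
lemma wbound (hF : SFour) (hθ : 0 < θ) (hθ1 : θ ≤ 1) : ∃ C : ℝ, 0 < C ∧ ∀ (L : ℝ) (β : ℂ), 1 ≤ L →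
    ∃ (W : ℝ) (w : ℝ → ℂ), FT θ (L * β) W w ∧
      W ^ 2 = C * ((1 + L * ‖β‖) ^ 20 * Real.exp (2 * θ * L * ‖β‖)) := by
  obtain ⟨C1, hC1, hF⟩ := hF θ hθ hθ1
  refine ⟨C1 ^ 2, by positivity, fun L β hL => ?_⟩
  have hL0 : 0 < L := by linarith
  obtain ⟨w, hwc, hwb, hwe⟩ := hF (L * β)
  have hnz : ‖(L : ℂ) * β‖ = L * ‖β‖ := by
    rw [norm_mul, Complex.norm_real, Real.norm_of_nonneg hL0.le]
  refine ⟨C1 * (1 + L * ‖β‖) ^ 10 * Real.exp (θ * (L * ‖β‖)), w, ⟨hwc, fun τ => ?_, hwe⟩, ?_⟩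
  · have := hwb τ
    rw [hnz] at this
    exact this
  · rw [mul_pow, mul_pow, ← Real.exp_nat_mul]
    push_cast
    ring_nf

theorem mo1 (h : S_EU1) : S_MO1 := by
  intro k N ps lam hf θ hθ hθ1
  obtain ⟨C, hC, hE⟩ := h k N ps lam hf
  obtain ⟨C1, hC1, hw⟩ := wbound (θ := θ) Pool.Agent.W688.SD.sfour hθ hθ1
  set K2 := ∫ τ, rho 2 τ with hK2
  have hK2' : 0 ≤ K2 := integral_nonneg fun τ => (rho_pos _ τ).le
  refine ⟨C1 * (K2 * (C * K2)) + 1, by positivity, fun L β X hL => ?_⟩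
  obtain ⟨W, w, hft, hW⟩ := hw L β hL
  have hcn : ∀ n ∈ Finset.Icc 1 X, cn lam (bq ps lam θ L β) n =
      ∫ τ, w τ * ∑ h ∈ n.divisors, mf ps lam h * (h : ℂ) ^ (-ss L τ) * lam (n / h) := by
    intro n hn
    unfold cn
    have h1 : ∀ m ∈ n.divisors, bq ps lam θ L β m * lam (n / m) =
        ∫ τ, w τ * (mf ps lam m * (m : ℂ) ^ (-ss L τ) * lam (n / m)) := by
      intro m hm
      rw [bq_eq L hL hθ β hft ps lam m (Nat.pos_of_mem_divisors hm), ← integral_mul_const]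
      refine integral_congr_ae (Eventually.of_forall fun τ => ?_)
      show w τ * _ * _ = w τ * (_ * _)
      ring
    rw [Finset.sum_congr rfl h1, ← integral_finsetSum]
    · refine integral_congr_ae (Eventually.of_forall fun τ => ?_)
      show ∑ m ∈ n.divisors, w τ * _ = w τ * _
      rw [← Finset.mul_sum]
    · intro m hm
      have hm1 : 1 ≤ m := Nat.pos_of_mem_divisors hm
      refine hft.int_mul _ ((continuous_const.mul (cpow_cont L m hm1)).mul continuous_const)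
        (‖mf ps lam m‖ * 1 * ‖lam (n / m)‖) fun τ => ?_
      rw [norm_mul, norm_mul]
      have := cpow_norm_le L τ hL m hm1
      gcongr
  have h1 := sumw (Finset.Icc 1 X) hft (fun n : ℕ => (n : ℝ) ^ (-(1 + 1 / L)))
    (fun n _ => Real.rpow_nonneg (Nat.cast_nonneg _) _)
    (fun n τ => ∑ h ∈ n.divisors, mf ps lam h * (h : ℂ) ^ (-ss L τ) * lam (n / h))
    (fun n _ => continuous_finsetSum _ fun m hm =>
      (continuous_const.mul (cpow_cont L m (Nat.pos_of_mem_divisors hm))).mul continuous_const)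
    (fun n => ∑ m ∈ n.divisors, ‖mf ps lam m‖ * 1 * ‖lam (n / m)‖)
    (fun n _ τ => by
      refine (norm_sum_le _ _).trans (Finset.sum_le_sum fun m hm => ?_)
      rw [norm_mul, norm_mul]
      have := cpow_norm_le L τ hL m (Nat.pos_of_mem_divisors hm)
      gcongr)
    C (fun τ => hE L τ X hL)
  calc ∑ n ∈ Finset.Icc 1 X, (n : ℝ) ^ (-(1 + 1 / L)) * ‖cn lam (bq ps lam θ L β) n‖ ^ 2
      = ∑ n ∈ Finset.Icc 1 X, (n : ℝ) ^ (-(1 + 1 / L)) *
        ‖∫ τ, w τ * ∑ h ∈ n.divisors, mf ps lam h * (h : ℂ) ^ (-ss L τ) * lam (n / h)‖ ^ 2 :=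
        Finset.sum_congr rfl fun n hn => by rw [hcn n hn]
    _ ≤ _ := h1
    _ ≤ _ := by
        rw [hW]
        have h5 : 0 ≤ (1 + L * ‖β‖) ^ 20 * Real.exp (2 * θ * L * ‖β‖) := by
          have : 0 ≤ L * ‖β‖ := by positivity
          positivity
        calc _ = C1 * (K2 * (C * K2)) * ((1 + L * ‖β‖) ^ 20 * Real.exp (2 * θ * L * ‖β‖)) := by ring
          _ ≤ (C1 * (K2 * (C * K2)) + 1) * ((1 + L * ‖β‖) ^ 20 * Real.exp (2 * θ * L * ‖β‖)) :=
              mul_le_mul_of_nonneg_right (by linarith) h5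
          _ = _ := by ring

/-- Mean squares: the summability needed for the dual sum. -/
def S_SQ : Prop := ∀ (k N : ℕ) (ps lam : ℕ → ℂ), Frm k N ps lam → ∀ σ : ℝ, 1 < σ →
  Summable (fun n : ℕ => ‖lam n‖ ^ 2 * (n : ℝ) ^ (-σ)) ∧
    Summable (fun n : ℕ => ‖mf ps lam n‖ ^ 2 * (n : ℝ) ^ (-σ))

lemma sum_shift (f : ℕ → ℝ) (σ : ℝ) (q : ℕ) (hq : 1 ≤ q)
    (h : Summable (fun n : ℕ => f n * (n : ℝ) ^ (-σ))) :
    Summable (fun l : ℕ => f (q * l) * (l : ℝ) ^ (-σ)) := by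
  have h1 : Summable (fun l : ℕ => f (q * l) * ((q * l : ℕ) : ℝ) ^ (-σ)) :=
    h.comp_injective (i := fun l : ℕ => q * l) fun a b hab => Nat.eq_of_mul_eq_mul_left hq hab
  refine (h1.mul_left ((q : ℝ) ^ σ)).congr fun l => ?_
  have hq0 : (0 : ℝ) < q := by exact_mod_cast hq
  rw [Nat.cast_mul, Real.mul_rpow hq0.le (Nat.cast_nonneg l)]
  have : (q : ℝ) ^ σ * (q : ℝ) ^ (-σ) = 1 := by
    rw [← Real.rpow_add hq0]; simp
  calc (q : ℝ) ^ σ * (f (q * l) * ((q : ℝ) ^ (-σ) * (l : ℝ) ^ (-σ)))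
      = ((q : ℝ) ^ σ * (q : ℝ) ^ (-σ)) * (f (q * l) * (l : ℝ) ^ (-σ)) := by ring
    _ = _ := by rw [this, one_mul]

lemma sum_prod (f g : ℕ → ℂ) (σ : ℝ) (q a : ℕ) (hq : 1 ≤ q) (ha : 1 ≤ a)
    (hf : Summable (fun n : ℕ => ‖f n‖ ^ 2 * (n : ℝ) ^ (-σ)))
    (hg : Summable (fun n : ℕ => ‖g n‖ ^ 2 * (n : ℝ) ^ (-σ))) :
    Summable (fun l : ℕ => ‖f (q * l)‖ * ‖g (a * l)‖ * (l : ℝ) ^ (-σ)) := by
  have h1 := sum_shift (fun n => ‖f n‖ ^ 2) σ q hq hf
  have h2 := sum_shift (fun n => ‖g n‖ ^ 2) σ a ha hg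
  refine Summable.of_nonneg_of_le (fun l => by positivity) (fun l => ?_) (h1.add h2)
  have h3 : (0 : ℝ) ≤ (l : ℝ) ^ (-σ) := by positivity
  rw [← add_mul]
  refine mul_le_mul_of_nonneg_right ?_ h3
  nlinarith [sq_nonneg (‖f (q * l)‖ - ‖g (a * l)‖), sq_nonneg ‖f (q * l)‖, sq_nonneg ‖g (a * l)‖]

theorem mo2 (h0 : S_SQ) (h : S_EU2) : S_MO2 := by
  intro k N ps lam hf θ hθ hθ1
  obtain ⟨C, hC, hE⟩ := h k N ps lam hf
  obtain ⟨C1, hC1, hw⟩ := wbound (θ := θ) Pool.Agent.W688.SD.sfour hθ hθ1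
  set K2 := ∫ τ, rho 2 τ with hK2
  have hK2' : 0 ≤ K2 := integral_nonneg fun τ => (rho_pos _ τ).le
  refine ⟨C1 * (K2 * (C * K2)) + 1, by positivity, fun L β X y hL hy => ?_⟩
  obtain ⟨W, w, hft, hW⟩ := hw L β hL
  have hL0 : 0 < L := by linarith
  have hσ : 1 < 1 + 1 / L := by
    have : 0 < 1 / L := by positivity
    linarith
  obtain ⟨hs1, hs2⟩ := h0 k N ps lam hf (1 + 1 / L) hσ
  -- the terms
  set e : ℕ → ℕ → ℕ → ℝ → ℂ := fun q a l τ =>
    mf ps lam (q * l) * conj (lam (a * l)) * (l : ℂ) ^ (-(1 + (1 + I * τ) / L)) with he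
  have henorm : ∀ (q a l : ℕ) (τ : ℝ), ‖e q a l τ‖ =
      ‖mf ps lam (q * l)‖ * ‖lam (a * l)‖ * (l : ℝ) ^ (-(1 + 1 / L)) := by
    intro q a l τ
    simp only [he]
    rw [norm_mul, norm_mul, RCLike.norm_conj]
    rcases Nat.eq_zero_or_pos l with rfl | hl
    · simp [mf_zero]
    · rw [Complex.norm_natCast_cpow_of_pos hl, neg_re, add_re, one_re]
      have := ss_re L τ
      unfold ss at this
      rw [this]
  have hsum : ∀ q a : ℕ, 1 ≤ q → 1 ≤ a → Summable (fun l : ℕ =>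
      ‖mf ps lam (q * l)‖ * ‖lam (a * l)‖ * (l : ℝ) ^ (-(1 + 1 / L))) := fun q a hq ha =>
    sum_prod (mf ps lam) lam (1 + 1 / L) q a hq ha hs2 hs1
  have hecont : ∀ q a l : ℕ, Continuous (e q a l) := by
    intro q a l
    simp only [he]
    rcases Nat.eq_zero_or_pos l with rfl | hl
    · simp only [mul_zero, mf_zero, zero_mul]
      exact continuous_const
    · refine continuous_const.mul (Continuous.const_cpow (by fun_prop) (Or.inl ?_))
      exact_mod_cast (by omega : l ≠ 0)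
  set Z : ℕ → ℕ → ℝ → ℂ := fun q a τ => ∑' l : ℕ, e q a l τ with hZ
  have hZc : ∀ q a : ℕ, 1 ≤ q → 1 ≤ a → Continuous (Z q a) := fun q a hq ha =>
    continuous_tsum (hecont q a) (hsum q a hq ha) fun l τ => (henorm q a l τ).le
  have hZb : ∀ q a : ℕ, 1 ≤ q → 1 ≤ a → ∀ τ, ‖Z q a τ‖ ≤ ∑' l : ℕ,
      ‖mf ps lam (q * l)‖ * ‖lam (a * l)‖ * (l : ℝ) ^ (-(1 + 1 / L)) := by
    intro q a hq ha τ
    have h1 : Summable (fun l => ‖e q a l τ‖) := by
      simp only [henorm]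
      exact hsum q a hq ha
    refine (norm_tsum_le_tsum_norm h1).trans (le_of_eq ?_)
    simp only [henorm]
  -- the representation
  have hG : ∀ q a : ℕ, 1 ≤ q → 1 ≤ a → Gq y lam (bq ps lam θ L β) q a =
      ∫ τ, w τ * ((q : ℂ) ^ (-ss L τ) * Z q a τ) := by
    intro q a hq ha
    have hq0 : (0 : ℝ) < q := by exact_mod_cast hq
    have hterm : ∀ l : ℕ, bq ps lam θ L β (q * l) * conj (lam (a * l)) / l =
        ∫ τ, w τ * ((q : ℂ) ^ (-ss L τ) * e q a l τ) := by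
      intro l
      rcases Nat.eq_zero_or_pos l with rfl | hl
      · simp [he, mf_zero]
      · rw [bq_eq L hL hθ β hft ps lam (q * l) (Nat.mul_pos hq hl), mul_div_assoc, ← integral_mul_const]
        refine integral_congr_ae (Eventually.of_forall fun τ => ?_)
        show w τ * (mf ps lam (q * l) * ((q * l : ℕ) : ℂ) ^ (-ss L τ)) * (conj (lam (a * l)) / l) =
          w τ * ((q : ℂ) ^ (-ss L τ) * e q a l τ)
        have hl0 : (l : ℂ) ≠ 0 := by exact_mod_cast (by omega : l ≠ 0)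
        have e1 : (l : ℂ) ^ (-(1 + (1 + I * (τ : ℂ)) / (L : ℂ))) = (l : ℂ) ^ (-ss L τ) / l := by
          rw [show -(1 + (1 + I * (τ : ℂ)) / (L : ℂ)) = -ss L τ - 1 by unfold ss; ring,
            cpow_sub _ _ hl0, cpow_one]
        simp only [he]
        rw [e1, Nat.cast_mul, Complex.natCast_mul_natCast_cpow]
        ring
    have hfi : ∀ l, Integrable fun τ => w τ * ((q : ℂ) ^ (-ss L τ) * e q a l τ) := by
      intro l
      refine hft.int_mul _ ((cpow_cont L q hq).mul (hecont q a l)) (1 *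
        (‖mf ps lam (q * l)‖ * ‖lam (a * l)‖ * (l : ℝ) ^ (-(1 + 1 / L)))) fun τ => ?_
      rw [norm_mul, henorm]
      have := cpow_norm_le L τ hL q hq
      gcongr
    have hsumi : Summable fun l : ℕ => ∫ τ, ‖w τ * ((q : ℂ) ^ (-ss L τ) * e q a l τ)‖ := by
      refine Summable.of_nonneg_of_le (fun l => integral_nonneg fun τ => norm_nonneg _)
        (fun l => ?_) ((hsum q a hq ha).mul_left (∫ τ, ‖w τ‖))
      rw [← integral_mul_const]
      refine integral_mono (hfi l).norm (hft.int_norm.mul_const _) fun τ => ?_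
      show ‖w τ * ((q : ℂ) ^ (-ss L τ) * e q a l τ)‖ ≤ ‖w τ‖ * _
      rw [norm_mul, norm_mul, henorm]
      refine mul_le_mul_of_nonneg_left ?_ (norm_nonneg _)
      have := cpow_norm_le L τ hL q hq
      exact mul_le_of_le_one_left (by positivity) this
    have hHS := hasSum_integral_of_summable_integral_norm hfi hsumi
    have hfin : Gq y lam (bq ps lam θ L β) q a =
        ∑' l : ℕ, bq ps lam θ L β (q * l) * conj (lam (a * l)) / l := by
      unfold Gq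
      rw [tsum_eq_sum (s := Finset.Icc 1 (y / q))]
      intro l hl
      rw [Finset.mem_Icc, not_and_or] at hl
      rcases hl with hl | hl
      · have : l = 0 := by omega
        subst this
        simp
      · have : y < q * l := by
          rw [not_le] at hl
          rw [mul_comm]
          exact (Nat.div_lt_iff_lt_mul hq).1 hl
        rw [bq_zero_of L hL hθ β ps lam y (q * l) hy this]
        simp
    rw [hfin, tsum_congr hterm, hHS.tsum_eq]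
    refine integral_congr_ae (Eventually.of_forall fun τ => ?_)
    show ∑' l, w τ * ((q : ℂ) ^ (-ss L τ) * e q a l τ) = w τ * ((q : ℂ) ^ (-ss L τ) * Z q a τ)
    rw [tsum_mul_left, tsum_mul_left]
  -- the sum over pairs
  set s : Finset (Σ _ : ℕ, ℕ) := (Finset.Icc 1 X).sigma
    (fun q => (Finset.Icc 1 X).filter (fun a => a.Coprime q)) with hs
  have hmem : ∀ i ∈ s, 1 ≤ i.1 ∧ 1 ≤ i.2 := by
    intro i hi
    rw [hs, Finset.mem_sigma, Finset.mem_filter, Finset.mem_Icc, Finset.mem_Icc] at hi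
    exact ⟨hi.1.1, hi.2.1.1⟩
  have h1 := sumw s hft (fun i => ((i.2 : ℝ) * i.1) ^ (-(1 + 1 / L)))
    (fun i _ => by positivity)
    (fun i τ => (i.1 : ℂ) ^ (-ss L τ) * Z i.1 i.2 τ)
    (fun i hi => (cpow_cont L i.1 (hmem i hi).1).mul (hZc i.1 i.2 (hmem i hi).1 (hmem i hi).2))
    (fun i => 1 * ∑' l : ℕ, ‖mf ps lam (i.1 * l)‖ * ‖lam (i.2 * l)‖ * (l : ℝ) ^ (-(1 + 1 / L)))
    (fun i hi τ => by
      rw [norm_mul]
      exact mul_le_mul (cpow_norm_le L τ hL i.1 (hmem i hi).1)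
        (hZb i.1 i.2 (hmem i hi).1 (hmem i hi).2 τ) (norm_nonneg _) zero_le_one)
    C (fun τ => by
      refine le_trans ?_ (hE L τ X hL)
      rw [hs, Finset.sum_sigma]
      refine Finset.sum_le_sum fun q hq => Finset.sum_le_sum fun a ha => ?_
      refine mul_le_mul_of_nonneg_left ?_ (by positivity)
      refine pow_le_pow_left₀ (norm_nonneg _) ?_ 2
      rw [norm_mul]
      refine mul_le_of_le_one_left (norm_nonneg _) ?_
      exact cpow_norm_le L τ hL q (Finset.mem_Icc.1 hq).1)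
  calc ∑ q ∈ Finset.Icc 1 X, ∑ a ∈ (Finset.Icc 1 X).filter (fun a => a.Coprime q),
        ((a : ℝ) * q) ^ (-(1 + 1 / L)) * ‖Gq y lam (bq ps lam θ L β) q a‖ ^ 2
      = ∑ i ∈ s, ((i.2 : ℝ) * i.1) ^ (-(1 + 1 / L)) *
        ‖∫ τ, w τ * ((i.1 : ℂ) ^ (-ss L τ) * Z i.1 i.2 τ)‖ ^ 2 := by
        rw [hs, Finset.sum_sigma]
        refine Finset.sum_congr rfl fun q hq => Finset.sum_congr rfl fun a ha => ?_
        rw [hG q a (Finset.mem_Icc.1 hq).1 (Finset.mem_Icc.1 (Finset.mem_filter.1 ha).1).1]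
    _ ≤ _ := h1
    _ ≤ _ := by
        rw [hW]
        have h5 : 0 ≤ (1 + L * ‖β‖) ^ 20 * Real.exp (2 * θ * L * ‖β‖) := by
          have : 0 ≤ L * ‖β‖ := by positivity
          positivity
        calc _ = C1 * (K2 * (C * K2)) * ((1 + L * ‖β‖) ^ 20 * Real.exp (2 * θ * L * ‖β‖)) := by ring
          _ ≤ (C1 * (K2 * (C * K2)) + 1) * ((1 + L * ‖β‖) ^ 20 * Real.exp (2 * θ * L * ‖β‖)) :=
              mul_le_mul_of_nonneg_right (by linarith) h5
          _ = _ := by ring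

end Pool.Agent.Y494.GL
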