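import Pool.Agent.Y671.GL.Spec

set_option autoImplicit false

/-!
# Task FJ1: intervals and Fourier coefficients of a periodic function
-/

namespace Pool.Agent.Y494.GL

open Complex Filter Topology MeasureTheory Set
open scoped ComplexConjugate

/-- Covering an interval by windows. -/
lemma cover (g : ℝ → ℝ) (hg : Continuous g) (L B : ℝ)
    (h : ∀ a : ℝ, ∫ u in a..(a + L), g u ≤ B) (n : ℕ) :
    ∫ u in (0 : ℝ)..(n * L), g u ≤ n * B := by
  induction n with
  | zero => simp
  | succ n ih =>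
    have h1 : (∫ u in (0 : ℝ)..((n + 1 : ℕ) * L), g u) =
        (∫ u in (0 : ℝ)..(n * L), g u) + ∫ u in (n * L)..(n * L + L), g u := by
      rw [intervalIntegral.integral_add_adjacent_intervals (hg.intervalIntegrable _ _)
        (hg.intervalIntegrable _ _)]
      congr 1
      push_cast; ring
    rw [h1]
    have := h (n * L)
    push_cast
    linarith

lemma cover' (g : ℝ → ℝ) (hg : Continuous g) (h0 : ∀ x, 0 ≤ g x) (L B U : ℝ) (hL : 0 < L) (hB : 0 ≤ B)
    (hU : 0 < U) (h : ∀ a : ℝ, ∫ u in a..(a + L), g u ≤ B) :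
    ∫ u in (U / 4)..(4 * U), g u ≤ (4 * U / L + 1) * B := by
  obtain ⟨n, hn1, hn2⟩ : ∃ n : ℕ, 4 * U / L ≤ n ∧ (n : ℝ) ≤ 4 * U / L + 1 := by
    refine ⟨⌈4 * U / L⌉₊, Nat.le_ceil _, ?_⟩
    exact (Nat.ceil_lt_add_one (by positivity)).le
  have h1 : ∫ u in (U / 4)..(4 * U), g u ≤ ∫ u in (0 : ℝ)..(n * L), g u := by
    apply intervalIntegral.integral_mono_interval (by positivity) (by linarith) _ _
      (hg.intervalIntegrable _ _)
    · rwa [div_le_iff₀ hL] at hn1
    · exact Filter.Eventually.of_forall (fun x => h0 x)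
  calc _ ≤ _ := h1
    _ ≤ n * B := cover g hg L B h n
    _ ≤ _ := mul_le_mul_of_nonneg_right hn2 hB

/-- the polynomial in Fejér's kernel -/
noncomputable def pp (R : ℕ) (u : ℝ) : ℂ := ∑ j ∈ Finset.range R, cexp (I * j * u)

lemma pp_cont (R : ℕ) : Continuous (pp R) := by
  unfold pp; fun_prop

lemma pp_lower (R : ℕ) (u : ℝ) (hu : |u| * R ≤ 1) : (R : ℝ) / 2 ≤ ‖pp R u‖ := by
  refine le_trans ?_ (Complex.re_le_norm _)
  unfold pp
  rw [Complex.re_sum]
  have : ∀ j ∈ Finset.range R, (1 / 2 : ℝ) ≤ (cexp (I * j * u)).re := by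
    intro j hj
    have h1 : I * (j : ℂ) * (u : ℂ) = ((j * u : ℝ) : ℂ) * I := by push_cast; ring
    rw [h1, Complex.exp_ofReal_mul_I_re]
    have h2 : |(j : ℝ) * u| ≤ 1 := by
      rw [abs_mul, Nat.abs_cast]
      have : (j : ℝ) ≤ R := by exact_mod_cast (Finset.mem_range.mp hj).le
      nlinarith [abs_nonneg u]
    have h3 := Real.one_sub_sq_div_two_le_cos (x := (j : ℝ) * u)
    have h4 : ((j : ℝ) * u) ^ 2 ≤ 1 := by
      rw [← sq_abs]; nlinarith [abs_nonneg ((j : ℝ) * u)]
    linarith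
  calc (R : ℝ) / 2 = ∑ j ∈ Finset.range R, (1 / 2 : ℝ) := by simp; ring
    _ ≤ _ := Finset.sum_le_sum this

lemma pp_sq (R : ℕ) (u : ℝ) : ((‖pp R u‖ ^ 2 : ℝ) : ℂ) =
    ∑ j ∈ Finset.range R, ∑ k ∈ Finset.range R, cexp (I * ((j : ℤ) - (k : ℤ) : ℤ) * u) := by
  rw [← Complex.normSq_eq_norm_sq, Complex.normSq_eq_conj_mul_self]
  unfold pp
  rw [map_sum, Finset.sum_mul_sum, Finset.sum_comm]
  refine Finset.sum_congr rfl fun j _ => Finset.sum_congr rfl fun k _ => ?_
  rw [← Complex.exp_conj, ← Complex.exp_add]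
  congr 1
  simp only [map_mul, Complex.conj_I, Complex.conj_ofReal, Complex.conj_natCast]
  push_cast; ring

lemma window (f : ℝ → ℝ) (hf : Continuous f) (h0 : ∀ x, 0 ≤ f x)
    (hp : Function.Periodic f (2 * Real.pi)) (m : ℝ) (R : ℕ) (hm : 0 ≤ m) (hR : 1 ≤ R)
    (h : ∀ r : ℤ, r ≠ 0 → |r| < R →
      ‖∫ u in (0 : ℝ)..(2 * Real.pi), (f u : ℂ) * cexp (I * r * u)‖ ≤ m) (a : ℝ) :
    ∫ u in a..(a + 2 / R), f u ≤ 4 / R * ((∫ u in (0 : ℝ)..(2 * Real.pi), f u) + R * m) := by
  have hR0 : (0 : ℝ) < R := by exact_mod_cast hR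
  have hR1 : (1 : ℝ) ≤ R := by exact_mod_cast hR
  set b : ℝ := a + 1 / R with hb
  have hpi := Real.pi_gt_three
  have hinv : 1 / (R : ℝ) ≤ 1 := by rw [div_le_one hR0]; exact hR1
  have hinv0 : 0 < 1 / (R : ℝ) := by positivity
  set G : ℝ → ℝ := fun u => 4 / (R : ℝ) ^ 2 * (f u * ‖pp R (u - b)‖ ^ 2) with hG
  have hGc : Continuous G := by
    have := pp_cont R
    simp only [hG]
    fun_prop
  have hG0 : ∀ u, 0 ≤ G u := fun u => by
    have := h0 u
    simp only [hG]; positivity
  have e1 : ∫ u in a..(a + 2 / R), f u ≤ ∫ u in a..(a + 2 / R), G u := by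
    apply intervalIntegral.integral_mono_on (by linarith [show 0 < 2 / (R : ℝ) by positivity])
      (hf.intervalIntegrable _ _) (hGc.intervalIntegrable _ _)
    intro u hu
    have h1 : |u - b| * R ≤ 1 := by
      have : |u - b| ≤ 1 / R := by
        rw [abs_le]
        have e : 2 / (R : ℝ) = 1 / R + 1 / R := by ring
        rw [e] at hu
        constructor <;> [linarith [hu.1]; linarith [hu.2]]
      rwa [le_div_iff₀ hR0] at this
    have h2 := pp_lower R (u - b) h1
    have h3 : (R : ℝ) ^ 2 / 4 ≤ ‖pp R (u - b)‖ ^ 2 := by nlinarith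
    have h4 : f u = 4 / (R : ℝ) ^ 2 * (f u * ((R : ℝ) ^ 2 / 4)) := by field_simp
    simp only [hG]
    calc f u = _ := h4
      _ ≤ _ := mul_le_mul_of_nonneg_left (mul_le_mul_of_nonneg_left h3 (h0 u)) (by positivity)
  have e2 : ∫ u in a..(a + 2 / R), G u ≤ ∫ u in (b - Real.pi)..(b - Real.pi + 2 * Real.pi), G u := by
    apply intervalIntegral.integral_mono_interval
    · simp only [hb]; linarith
    · linarith [show 0 < 2 / (R : ℝ) by positivity]
    · have e : 2 / (R : ℝ) = 1 / R + 1 / R := by ring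
      rw [e]; simp only [hb]; linarith
    · exact Filter.Eventually.of_forall (fun x => hG0 x)
    · exact hGc.intervalIntegrable _ _
  have e3 : ∫ u in (b - Real.pi)..(b - Real.pi + 2 * Real.pi), G u = ∫ u in (0 : ℝ)..(2 * Real.pi), G u := by
    have hGp : Function.Periodic G (2 * Real.pi) := by
      intro u
      simp only [hG]
      rw [hp u]
      congr 3
      unfold pp
      congr 1
      refine Finset.sum_congr rfl fun j _ => ?_
      rw [Complex.exp_eq_exp_iff_exists_int]
      exact ⟨j, by push_cast; ring⟩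
    have := hGp.intervalIntegral_add_eq (b - Real.pi) 0
    rw [this, zero_add]
  have e4 : (((∫ u in (0 : ℝ)..(2 * Real.pi), G u) : ℝ) : ℂ) = 4 / (R : ℂ) ^ 2 *
      ∑ j ∈ Finset.range R, ∑ k ∈ Finset.range R,
        (∫ u in (0 : ℝ)..(2 * Real.pi), (f u : ℂ) * cexp (I * ((j : ℤ) - (k : ℤ) : ℤ) * u)) *
          cexp (-(I * ((j : ℤ) - (k : ℤ) : ℤ) * b)) := by
    rw [← intervalIntegral.integral_ofReal]
    have : ∀ u : ℝ, ((G u : ℝ) : ℂ) = 4 / (R : ℂ) ^ 2 * ∑ j ∈ Finset.range R, ∑ k ∈ Finset.range R,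
        ((f u : ℂ) * cexp (I * ((j : ℤ) - (k : ℤ) : ℤ) * u)) *
          cexp (-(I * ((j : ℤ) - (k : ℤ) : ℤ) * b)) := by
      intro u
      simp only [hG]
      rw [Complex.ofReal_mul, Complex.ofReal_mul, pp_sq]
      push_cast
      congr 1
      rw [Finset.mul_sum]
      refine Finset.sum_congr rfl fun j _ => ?_
      rw [Finset.mul_sum]
      refine Finset.sum_congr rfl fun k _ => ?_
      rw [mul_assoc (f u : ℂ) (cexp _) (cexp _), ← Complex.exp_add]
      congr 2
      ring
    simp_rw [this]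
    rw [intervalIntegral.integral_const_mul, intervalIntegral.integral_finsetSum]
    · congr 1
      refine Finset.sum_congr rfl fun j _ => ?_
      rw [intervalIntegral.integral_finsetSum]
      · refine Finset.sum_congr rfl fun k _ => ?_
        rw [intervalIntegral.integral_mul_const]
      · intro k _
        apply Continuous.intervalIntegrable
        fun_prop
    · intro j _
      apply Continuous.intervalIntegrable
      fun_prop
  set J : ℝ := ∫ u in (0 : ℝ)..(2 * Real.pi), f u with hJ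
  have hJ0 : 0 ≤ J := intervalIntegral.integral_nonneg (by positivity) (fun u _ => h0 u)
  have e5 : (∫ u in (0 : ℝ)..(2 * Real.pi), G u) ≤ 4 / (R : ℝ) ^ 2 *
      ∑ j ∈ Finset.range R, ∑ k ∈ Finset.range R, (if j = k then J else m) := by
    have h1 : (∫ u in (0 : ℝ)..(2 * Real.pi), G u) ≤ ‖(((∫ u in (0 : ℝ)..(2 * Real.pi), G u) : ℝ) : ℂ)‖ := by
      rw [Complex.norm_real]; exact le_abs_self _
    refine h1.trans ?_
    rw [e4, norm_mul]
    have h2 : ‖(4 / (R : ℂ) ^ 2 : ℂ)‖ = 4 / (R : ℝ) ^ 2 := by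
      rw [norm_div, norm_pow, Complex.norm_natCast]; norm_num
    rw [h2]
    apply mul_le_mul_of_nonneg_left _ (by positivity)
    refine (norm_sum_le _ _).trans (Finset.sum_le_sum fun j hj => ?_)
    refine (norm_sum_le _ _).trans (Finset.sum_le_sum fun k hk => ?_)
    have h3 : ‖cexp (-(I * ((j : ℤ) - (k : ℤ) : ℤ) * b))‖ = 1 := by
      have : -(I * (((j : ℤ) - (k : ℤ) : ℤ) : ℂ) * (b : ℂ)) = ((-((((j : ℤ) - (k : ℤ) : ℤ) : ℝ) * b) : ℝ) : ℂ) * I := by
        push_cast; ring
      rw [this, Complex.norm_exp_ofReal_mul_I]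
    rw [norm_mul, h3, mul_one]
    split_ifs with hjk
    · subst hjk
      simp only [sub_self, Int.cast_zero, mul_zero, zero_mul, Complex.exp_zero, mul_one]
      rw [intervalIntegral.integral_ofReal, Complex.norm_real, ← hJ, Real.norm_of_nonneg hJ0]
    · apply h
      · omega
      · have := Finset.mem_range.mp hj
        have := Finset.mem_range.mp hk
        rw [abs_lt]; omega
  have e6 : ∑ j ∈ Finset.range R, ∑ k ∈ Finset.range R, (if j = k then J else m) ≤ R * J + R * (R * m) := by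
    calc _ ≤ ∑ j ∈ Finset.range R, ∑ k ∈ Finset.range R, ((if j = k then J else 0) + m) := by
          refine Finset.sum_le_sum fun j _ => Finset.sum_le_sum fun k _ => ?_
          split_ifs <;> linarith
      _ = _ := by
          simp_rw [Finset.sum_add_distrib]
          simp only [Finset.sum_ite_eq, Finset.sum_const, Finset.card_range, nsmul_eq_mul]
          congr 1
          rw [Finset.sum_congr rfl (g := fun _ => J)]
          · simp
          · intro j hj
            rw [if_pos hj]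
  calc _ ≤ _ := e1
    _ ≤ _ := e2
    _ = _ := e3
    _ ≤ _ := e5
    _ ≤ 4 / (R : ℝ) ^ 2 * (R * J + R * (R * m)) := mul_le_mul_of_nonneg_left e6 (by positivity)
    _ = _ := by field_simp

theorem fj1 : Pool.Agent.Y671.GL.S_FJ1 := by
  refine ⟨12, by norm_num, fun f hf h0 hp => ⟨fun U hU => ?_, fun U m R hU hm hR hUR h => ?_⟩⟩
  · set J : ℝ := ∫ u in (0 : ℝ)..(2 * Real.pi), f u with hJ
    have hJ0 : 0 ≤ J := intervalIntegral.integral_nonneg (by positivity) (fun u _ => h0 u)
    have h1 := cover' f hf h0 (2 * Real.pi) J U (by positivity) hJ0 (by linarith) (fun a => by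
      have := hp.intervalIntegral_add_eq a 0
      rw [this, zero_add])
    refine h1.trans ?_
    apply mul_le_mul_of_nonneg_right _ hJ0
    have : 4 * U / (2 * Real.pi) ≤ U := by
      rw [div_le_iff₀ (by positivity)]
      nlinarith [Real.pi_gt_three]
    linarith
  · set J : ℝ := ∫ u in (0 : ℝ)..(2 * Real.pi), f u with hJ
    have hJ0 : 0 ≤ J := intervalIntegral.integral_nonneg (by positivity) (fun u _ => h0 u)
    have hR0 : (0 : ℝ) < R := by exact_mod_cast hR
    have h1 := cover' f hf h0 (2 / R) (4 / R * (J + R * m)) U (by positivity) (by positivity) hU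
      (window f hf h0 hp m R hm hR h)
    refine h1.trans ?_
    have h2 : (4 * U / (2 / (R : ℝ)) + 1) * (4 / R * (J + R * m)) = (2 * (U * R) + 1) / R * 4 * (J + R * m) := by
      field_simp; ring
    rw [h2]
    apply mul_le_mul_of_nonneg_right _ (by positivity)
    rw [div_mul_eq_mul_div, div_le_iff₀ hR0]
    nlinarith

end Pool.Agent.Y494.GL
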