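import Pool.Agent.Y494.GL.FJ1

set_option autoImplicit false

/-!
# Task FJ2: almost periodic functions with well-spaced frequencies
-/

namespace Pool.Agent.Y494.GL

open Complex Filter Topology MeasureTheory Set
open scoped ComplexConjugate

lemma int_exp (k : ℤ) : ∫ x in (0 : ℝ)..(2 * Real.pi), cexp (I * k * x) = if k = 0 then ((2 * Real.pi : ℝ) : ℂ) else 0 := by
  split_ifs with h
  · subst h; simp
  · have hc : I * (k : ℂ) ≠ 0 := mul_ne_zero I_ne_zero (by exact_mod_cast h)
    rw [integral_exp_mul_complex hc]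
    have : cexp (I * (k : ℂ) * ((2 * Real.pi : ℝ) : ℂ)) = 1 := by
      rw [Complex.exp_eq_one_iff]
      exact ⟨k, by push_cast; ring⟩
    rw [this]; simp

/-- an absolutely convergent trigonometric series -/
noncomputable def DD (e : ℕ → ℂ) (x : ℝ) : ℂ := ∑' m : ℕ, e m * cexp (-(I * m * x))

lemma nrm_exp (m : ℕ) (x : ℝ) : ‖cexp (-(I * m * x))‖ = 1 := by
  have : -(I * (m : ℂ) * (x : ℂ)) = ((-(m * x) : ℝ) : ℂ) * I := by push_cast; ring
  rw [this, Complex.norm_exp_ofReal_mul_I]

lemma DD_cont (e : ℕ → ℂ) (he : Summable (fun m => ‖e m‖)) : Continuous (DD e) := by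
  unfold DD
  apply continuous_tsum (u := fun m => ‖e m‖)
  · intro m; fun_prop
  · exact he
  · intro m x
    rw [norm_mul, nrm_exp, mul_one]

lemma DD_norm (e : ℕ → ℂ) (he : Summable (fun m => ‖e m‖)) (x : ℝ) : ‖DD e x‖ ≤ ∑' m, ‖e m‖ := by
  unfold DD
  refine (norm_tsum_le_tsum_norm ?_).trans ?_
  · simpa [norm_mul, nrm_exp] using he
  · simp [norm_mul, nrm_exp]

lemma DD_per (e : ℕ → ℂ) (x : ℝ) : DD e (x + 2 * Real.pi) = DD e x := by
  unfold DD
  congr 1
  funext m
  congr 1
  rw [Complex.exp_eq_exp_iff_exists_int]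
  exact ⟨-m, by push_cast; ring⟩

lemma DD_coef (e : ℕ → ℂ) (he : Summable (fun m => ‖e m‖)) (k : ℤ) :
    ∫ x in (0 : ℝ)..(2 * Real.pi), DD e x * cexp (I * k * x) =
      if 0 ≤ k then ((2 * Real.pi : ℝ) : ℂ) * e k.toNat else 0 := by
  have hn : ∀ x : ℝ, ‖cexp (I * k * x)‖ = 1 := by
    intro x
    have : (I * (k : ℂ) * (x : ℂ)) = (((k * x) : ℝ) : ℂ) * I := by push_cast; ring
    rw [this, Complex.norm_exp_ofReal_mul_I]
  have h1 : HasSum (fun m : ℕ => ∫ x in (0 : ℝ)..(2 * Real.pi), e m * cexp (-(I * m * x)) * cexp (I * k * x))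
      (∫ x in (0 : ℝ)..(2 * Real.pi), DD e x * cexp (I * k * x)) := by
    apply intervalIntegral.hasSum_integral_of_dominated_convergence (fun m _ => ‖e m‖)
    · intro m
      apply Continuous.aestronglyMeasurable
      fun_prop
    · intro m
      refine Filter.Eventually.of_forall fun x _ => ?_
      rw [norm_mul, norm_mul, nrm_exp, hn]; simp
    · exact Filter.Eventually.of_forall fun x _ => he
    · exact intervalIntegrable_const
    · refine Filter.Eventually.of_forall fun x _ => ?_
      apply HasSum.mul_right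
      apply Summable.hasSum
      apply Summable.of_norm
      simpa [norm_mul, nrm_exp] using he
  have h2 : ∀ m : ℕ, ∫ x in (0 : ℝ)..(2 * Real.pi), e m * cexp (-(I * m * x)) * cexp (I * k * x) =
      if k = m then ((2 * Real.pi : ℝ) : ℂ) * e m else 0 := by
    intro m
    have : ∀ x : ℝ, e m * cexp (-(I * m * x)) * cexp (I * k * x) = e m * cexp (I * ((k - m : ℤ) : ℂ) * x) := by
      intro x
      rw [mul_assoc, ← Complex.exp_add]
      congr 2
      push_cast; ring
    simp_rw [this]
    rw [intervalIntegral.integral_const_mul, int_exp]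
    by_cases h : k = m
    · rw [if_pos (by omega), if_pos h]; ring
    · rw [if_neg (by omega), if_neg h]; ring
  simp_rw [h2] at h1
  rw [← h1.tsum_eq]
  split_ifs with hk
  · rw [tsum_eq_single k.toNat]
    · rw [if_pos (by omega)]
    · intro m hm
      rw [if_neg (by omega)]
  · have : ∀ m : ℕ, (if k = m then ((2 * Real.pi : ℝ) : ℂ) * e m else 0) = 0 := by
      intro m
      rw [if_neg (by omega)]
    simp_rw [this]
    simp

lemma sq_coef (e : ℕ → ℂ) (he : Summable (fun m => ‖e m‖)) (r : ℤ) :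
    ∫ x in (0 : ℝ)..(2 * Real.pi), ((‖DD e x‖ ^ 2 : ℝ) : ℂ) * cexp (I * r * x) =
      ∑' n : ℕ, conj (e n) * (if 0 ≤ (n : ℤ) + r then ((2 * Real.pi : ℝ) : ℂ) * e ((n : ℤ) + r).toNat else 0) := by
  have hn : ∀ (k : ℤ) (x : ℝ), ‖cexp (I * k * x)‖ = 1 := by
    intro k x
    have : (I * (k : ℂ) * (x : ℂ)) = (((k * x) : ℝ) : ℂ) * I := by push_cast; ring
    rw [this, Complex.norm_exp_ofReal_mul_I]
  have h1 : HasSum (fun n : ℕ => ∫ x in (0 : ℝ)..(2 * Real.pi), conj (e n) * (DD e x * cexp (I * ((n : ℤ) + r : ℤ) * x)))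
      (∫ x in (0 : ℝ)..(2 * Real.pi), ((‖DD e x‖ ^ 2 : ℝ) : ℂ) * cexp (I * r * x)) := by
    apply intervalIntegral.hasSum_integral_of_dominated_convergence (fun m _ => ‖e m‖ * ∑' m, ‖e m‖)
    · intro m
      apply Continuous.aestronglyMeasurable
      have := DD_cont e he
      fun_prop
    · intro m
      refine Filter.Eventually.of_forall fun x _ => ?_
      rw [norm_mul, norm_mul, hn, mul_one, RCLike.norm_conj]
      exact mul_le_mul_of_nonneg_left (DD_norm e he x) (norm_nonneg _)
    · exact Filter.Eventually.of_forall fun x _ => he.mul_right _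
    · exact intervalIntegrable_const
    · refine Filter.Eventually.of_forall fun x _ => ?_
      have h3 : HasSum (fun n : ℕ => conj (e n * cexp (-(I * n * x)))) (conj (DD e x)) := by
        have h5 : Summable (fun n : ℕ => e n * cexp (-(I * n * x))) := by
          apply Summable.of_norm
          simpa [norm_mul, nrm_exp] using he
        exact (Complex.hasSum_conj' (f := fun n : ℕ => e n * cexp (-(I * n * x)))).mpr h5.hasSum
      have h4 := h3.mul_right (DD e x * cexp (I * r * x))
      have h6 : ∀ n : ℕ, conj (e n * cexp (-(I * n * x))) * (DD e x * cexp (I * r * x)) =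
          conj (e n) * (DD e x * cexp (I * ((n : ℤ) + r : ℤ) * x)) := by
        intro n
        rw [map_mul, ← Complex.exp_conj]
        simp only [map_neg, map_mul, Complex.conj_I, Complex.conj_ofReal, Complex.conj_natCast]
        have : cexp (I * ((n : ℤ) + r : ℤ) * x) = cexp (-(-I * n * x)) * cexp (I * r * x) := by
          rw [← Complex.exp_add]; congr 1; push_cast; ring
        rw [this]; ring
      have h7 : conj (DD e x) * (DD e x * cexp (I * r * x)) = ((‖DD e x‖ ^ 2 : ℝ) : ℂ) * cexp (I * r * x) := by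
        rw [← Complex.normSq_eq_norm_sq, Complex.normSq_eq_conj_mul_self]; ring
      rw [h7] at h4
      simp_rw [h6] at h4
      exact h4
  rw [← h1.tsum_eq]
  congr 1
  funext n
  rw [intervalIntegral.integral_const_mul, DD_coef e he]

theorem fj2 : Pool.Agent.Y671.GL.S_FJ2 := by
  obtain ⟨C, hC, hC'⟩ := fj1
  refine ⟨C * (2 * Real.pi), by positivity, fun d Q Y U v hQ hY hYU hv hs hd => ?_⟩
  set e : ℕ → ℂ := fun m => d m * cexp (-(m / Q * v)) with he
  have hen : ∀ m, ‖e m‖ = ‖d m‖ * Real.exp (-(m / Q * v)) := by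
    intro m
    simp only [he]
    rw [norm_mul]
    congr 1
    rw [show (-((m : ℂ) / (Q : ℂ) * (v : ℂ))) = ((-((m : ℝ) / Q * v) : ℝ) : ℂ) by push_cast; ring]
    rw [← Complex.ofReal_exp, Complex.norm_real, Real.norm_of_nonneg (Real.exp_pos _).le]
  have hes : Summable (fun m => ‖e m‖) := by simpa [hen] using hs
  have he0 : ∀ m, e m ≠ 0 → d m ≠ 0 := by
    intro m hm h0
    apply hm
    simp only [he]
    rw [h0, zero_mul]
  have hDD : ∀ u : ℝ, (∑' m : ℕ, d m * cexp (-(m / Q * (v + u * I)))) = DD e (u / Q) := by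
    intro u
    unfold DD
    congr 1
    funext m
    simp only [he]
    rw [mul_assoc, ← Complex.exp_add]
    congr 2
    push_cast
    ring
  simp_rw [hDD]
  have hcont := DD_cont e hes
  set f : ℝ → ℝ := fun x => ‖DD e x‖ ^ 2 with hf
  have hU : 0 < U := hY.trans_le hYU
  have h1 : ∫ u in (U / 4)..(4 * U), ‖DD e (u / Q)‖ ^ 2 = Q * ∫ x in (U / Q / 4)..(4 * (U / Q)), f x := by
    have := intervalIntegral.integral_comp_div (a := U / 4) (b := 4 * U) f hQ.ne'
    rw [smul_eq_mul] at this
    rw [show U / Q / 4 = U / 4 / Q by ring, show 4 * (U / Q) = 4 * U / Q by ring]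
    exact this
  set R : ℕ := ⌈Q / Y⌉₊ with hR
  have hR1 : 1 ≤ R := Nat.one_le_ceil_iff.mpr (by positivity)
  have hR2 : Q / Y ≤ R := Nat.le_ceil _
  have hfc : Continuous f := by simp only [hf]; fun_prop
  have hcoef : ∀ r : ℤ, ∫ u in (0 : ℝ)..(2 * Real.pi), ((f u : ℝ) : ℂ) * cexp (I * r * u) =
      ∑' n : ℕ, conj (e n) * (if 0 ≤ (n : ℤ) + r then ((2 * Real.pi : ℝ) : ℂ) * e ((n : ℤ) + r).toNat else 0) :=
    fun r => sq_coef e hes r
  have h2 := (hC' f hfc (fun x => by simp only [hf]; positivity) (fun x => by simp only [hf]; rw [DD_per])).2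
    (U / Q) 0 R (by positivity) le_rfl hR1 (by
      calc (1 : ℝ) ≤ U / Y := by rw [le_div_iff₀ hY]; linarith
        _ = U / Q * (Q / Y) := by field_simp
        _ ≤ _ := mul_le_mul_of_nonneg_left hR2 (by positivity)) (by
      intro r hr0 hrR
      rw [hcoef r]
      have : ∀ n : ℕ, conj (e n) * (if 0 ≤ (n : ℤ) + r then ((2 * Real.pi : ℝ) : ℂ) * e ((n : ℤ) + r).toNat else 0) = 0 := by
        intro n
        split_ifs with hnr
        · by_cases ha : e n = 0
          · simp [ha]
          · by_cases hb : e ((n : ℤ) + r).toNat = 0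
            · simp [hb]
            · exfalso
              have h5 := hd n ((n : ℤ) + r).toNat (he0 _ ha) (he0 _ hb) (by omega)
              have h6 : (n : ℝ) - (((n : ℤ) + r).toNat : ℝ) = -(r : ℝ) := by
                have : ((((n : ℤ) + r).toNat : ℤ) : ℝ) = ((n : ℤ) + r : ℤ) := by
                  rw [Int.toNat_of_nonneg hnr]
                push_cast at this
                rw [this]; ring
              rw [h6, abs_neg] at h5
              have h7 : (R : ℝ) ≤ |(r : ℝ)| := by
                have h8 : R ≤ r.natAbs := by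
                  rw [hR, Nat.ceil_le]
                  rw [Nat.cast_natAbs, Int.cast_abs]
                  exact h5
                have h9 : ((R : ℕ) : ℝ) ≤ (r.natAbs : ℝ) := by exact_mod_cast h8
                rw [Nat.cast_natAbs, Int.cast_abs] at h9
                exact h9
              have h10 : |(r : ℝ)| < R := by exact_mod_cast hrR
              linarith
        · simp
      simp_rw [this]
      simp)
  have h3 : ∫ u in (0 : ℝ)..(2 * Real.pi), f u = 2 * Real.pi * ∑' m : ℕ, ‖d m‖ ^ 2 * Real.exp (-(2 * (m / Q) * v)) := by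
    have h4 := hcoef 0
    simp only [Int.cast_zero, mul_zero, zero_mul, Complex.exp_zero, mul_one, add_zero, Int.toNat_natCast,
      Nat.cast_nonneg, if_true] at h4
    rw [intervalIntegral.integral_ofReal] at h4
    have h5 : ∀ n : ℕ, conj (e n) * (((2 * Real.pi : ℝ) : ℂ) * e n) =
        ((2 * Real.pi * (‖d n‖ ^ 2 * Real.exp (-(2 * (n / Q) * v))) : ℝ) : ℂ) := by
      intro n
      have h6 : conj (e n) * e n = ((‖e n‖ ^ 2 : ℝ) : ℂ) := by
        rw [← Complex.normSq_eq_norm_sq, Complex.normSq_eq_conj_mul_self]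
      have h7 : ‖e n‖ ^ 2 = ‖d n‖ ^ 2 * Real.exp (-(2 * (n / Q) * v)) := by
        rw [hen, mul_pow, ← Real.exp_nat_mul]
        congr 2
        push_cast; ring
      rw [← h7]
      push_cast at h6 ⊢
      rw [← h6]; ring
    simp_rw [h5] at h4
    rw [← Complex.ofReal_tsum, tsum_mul_left] at h4
    exact_mod_cast h4
  rw [h1]
  rw [h3] at h2
  calc Q * ∫ x in (U / Q / 4)..(4 * (U / Q)), f x ≤
      Q * (C * (U / Q) * (2 * Real.pi * ∑' m : ℕ, ‖d m‖ ^ 2 * Real.exp (-(2 * (m / Q) * v)) + R * 0)) :=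
        mul_le_mul_of_nonneg_left h2 hQ.le
    _ = C * (2 * Real.pi) * U * ∑' m : ℕ, ‖d m‖ ^ 2 * Real.exp (-(2 * (m / Q) * v)) := by
      generalize (∑' m : ℕ, ‖d m‖ ^ 2 * Real.exp (-(2 * (m / Q) * v))) = S
      field_simp
      ring

end Pool.Agent.Y494.GL
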