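import Pool.Agent.H382R2.Digamma
import Pool.Agent.W688.GF.Stirling
import Pool.Agent.Y671.GL.Spec3

set_option autoImplicit false

/-!
# Task STIR of project GD2: Stirling's formula for `c^w Γ(w + A)`
-/

namespace Pool.Agent.Y494.GL.Stir

open Complex Pool.Agent.Y671.GL

lemma Hg_hd {c A : ℝ} (hc : 0 < c) {w : ℂ} (hw : w.im ≠ 0) :
    HasDerivAt (Hg c A) (Hg c A w * ((Real.log c : ℂ) + logDeriv Complex.Gamma (w + A))) w := by
  have him : (w + (A : ℂ)).im ≠ 0 := by simpa using hw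
  have hnn : ∀ m : ℕ, w + (A : ℂ) ≠ -(m : ℂ) := by
    intro m h
    apply him
    rw [h]
    simp
  have hG : HasDerivAt Complex.Gamma (deriv Complex.Gamma (w + A)) (w + A) :=
    (differentiableAt_Gamma _ hnn).hasDerivAt
  have hG0 : Complex.Gamma (w + A) ≠ 0 := Gamma_ne_zero hnn
  have h1 : HasDerivAt (fun z : ℂ => Complex.Gamma (z + A)) (deriv Complex.Gamma (w + A)) w := by
    have := hG.comp w ((hasDerivAt_id w).add_const (A : ℂ))
    simp only [mul_one] at this
    exact this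
  have hcc : (c : ℂ) ≠ 0 := by exact_mod_cast hc.ne'
  have h2 : HasDerivAt (fun z : ℂ => (c : ℂ) ^ z) ((c : ℂ) ^ w * Complex.log c) w := by
    have := (hasDerivAt_id w).const_cpow (c := (c : ℂ)) (Or.inl hcc)
    simpa using this
  have h3 := h2.mul h1
  refine h3.congr_deriv ?_
  unfold Hg
  rw [logDeriv_apply, ← ofReal_log hc.le]
  field_simp

lemma Hg_ne {c A : ℝ} (hc : 0 < c) {w : ℂ} (hw : w.im ≠ 0) : Hg c A w ≠ 0 := by
  have him : (w + (A : ℂ)).im ≠ 0 := by simpa using hw
  have hnn : ∀ m : ℕ, w + (A : ℂ) ≠ -(m : ℂ) := by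
    intro m h
    apply him
    rw [h]
    simp
  have hcc : (c : ℂ) ≠ 0 := by exact_mod_cast hc.ne'
  refine mul_ne_zero ?_ (Gamma_ne_zero hnn)
  rw [Ne, cpow_eq_zero_iff]
  tauto

lemma Hg_ld {c A : ℝ} (hc : 0 < c) {w : ℂ} (hw : w.im ≠ 0) :
    logDeriv (Hg c A) w = (Real.log c : ℂ) + logDeriv Complex.Gamma (w + A) := by
  rw [logDeriv_apply (Hg c A), (Hg_hd hc hw).deriv]
  rw [mul_div_assoc, mul_div_cancel₀]
  exact Hg_ne hc hw

lemma lower {A : ℝ} (hA : 0 < A) {t : ℝ} (ht : 1 ≤ t) :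
    Real.exp (-((Real.pi + 1 + 2 * A + 1 + Pool.Agent.W688.GF.cS) * t)) ≤ ‖Complex.Gamma (I * t + A)‖ := by
  have hcS := Pool.Agent.W688.GF.cS_nonneg
  set z : ℂ := I * t + A + 1 with hz
  have hre : z.re = A + 1 := by simp [hz]
  have him : z.im = t := by simp [hz]
  have h1 := Pool.Agent.W688.GF.stir_one (z := z) (by rw [hre]; linarith)
  have hn : 1 ≤ ‖z‖ := by
    have := re_le_norm z
    rw [hre] at this; linarith
  have hlog : 0 ≤ Real.log ‖z‖ := Real.log_nonneg hn
  have e1 : (z * Complex.log z - z).re = (A + 1) * Real.log ‖z‖ - t * arg z - (A + 1) := by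
    rw [sub_re, mul_re, log_re, log_im, hre, him]
  have harg : arg z ≤ Real.pi := arg_le_pi z
  have h2 := (abs_le.1 h1).1
  rw [e1] at h2
  have h3 : -(Real.pi * t) - (A + 1) - Pool.Agent.W688.GF.cS ≤ Real.log ‖Complex.Gamma z‖ := by
    have h4 : t * arg z ≤ Real.pi * t := by nlinarith
    have h5 : 1 / 2 * Real.log ‖z‖ ≤ (A + 1) * Real.log ‖z‖ := by nlinarith
    linarith
  have hw0 : (I * t + A : ℂ) ≠ 0 := by
    intro h
    have := congrArg re h
    simp at this
    linarith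
  have hG : Complex.Gamma z = (I * t + A) * Complex.Gamma (I * t + A) := by
    rw [hz, Gamma_add_one _ hw0]
  have hGz : Complex.Gamma z ≠ 0 := Gamma_ne_zero_of_re_pos (by rw [hre]; linarith)
  have hnw : ‖(I * t + A : ℂ)‖ ≤ t + A := by
    refine (norm_add_le _ _).trans ?_
    rw [norm_mul, norm_I, one_mul, norm_real, norm_real, Real.norm_eq_abs, Real.norm_eq_abs,
      abs_of_pos (by linarith), abs_of_pos hA]
  have hnw0 : 0 < ‖(I * t + A : ℂ)‖ := norm_pos_iff.2 hw0
  have h6 : ‖(I * t + A : ℂ)‖ ≤ Real.exp (t + A) :=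
    hnw.trans (by linarith [Real.add_one_le_exp (t + A)])
  have h7 : Real.exp (-(Real.pi * t) - (A + 1) - Pool.Agent.W688.GF.cS) ≤ ‖Complex.Gamma z‖ := by
    rw [← Real.exp_log (norm_pos_iff.2 hGz)]
    exact Real.exp_le_exp.2 h3
  rw [hG, norm_mul] at h7
  have h8 : Real.exp (-(Real.pi * t) - (A + 1) - Pool.Agent.W688.GF.cS) ≤
      Real.exp (t + A) * ‖Complex.Gamma (I * t + A)‖ :=
    h7.trans (mul_le_mul_of_nonneg_right h6 (norm_nonneg _))
  have h9 : Real.exp (-((Real.pi + 1 + 2 * A + 1 + Pool.Agent.W688.GF.cS) * t)) ≤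
      Real.exp (-(t + A)) * Real.exp (-(Real.pi * t) - (A + 1) - Pool.Agent.W688.GF.cS) := by
    rw [← Real.exp_add]
    apply Real.exp_le_exp.2
    nlinarith
  calc _ ≤ Real.exp (-(t + A)) * Real.exp (-(Real.pi * t) - (A + 1) - Pool.Agent.W688.GF.cS) := h9
    _ ≤ Real.exp (-(t + A)) * (Real.exp (t + A) * ‖Complex.Gamma (I * t + A)‖) := by gcongr
    _ = ‖Complex.Gamma (I * t + A)‖ := by
      rw [← mul_assoc, ← Real.exp_add]
      simp

lemma log_near {t x : ℝ} (ht : 0 < t) (h1 : 7 * t / 8 ≤ x) (h2 : x ≤ 9 * t / 8) :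
    |Real.log x - Real.log t| ≤ 1 := by
  have hx : 0 < x := by linarith
  rw [← Real.log_div hx.ne' ht.ne', abs_le]
  constructor
  · have h3 : Real.exp (-1) ≤ x / t := by
      rw [le_div_iff₀ ht]
      have h4 : Real.exp (-1) ≤ 7 / 8 := by
        rw [Real.exp_neg, inv_le_comm₀ (Real.exp_pos _) (by norm_num)]
        linarith [Real.add_one_le_exp (1 : ℝ)]
      nlinarith
    rw [Real.le_log_iff_exp_le (by positivity)]
    exact h3
  · rw [Real.log_le_iff_le_exp (by positivity), div_le_iff₀ ht]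
    nlinarith [Real.add_one_le_exp (1 : ℝ)]

end Pool.Agent.Y494.GL.Stir

namespace Pool.Agent.Y494.GL

open Complex Pool.Agent.Y671.GL Stir

theorem stir : S_STIR := by
  intro c A hc hA
  obtain ⟨C, hC1, hC⟩ := SG.digamma_bound
  have hcS := Pool.Agent.W688.GF.cS_nonneg
  have hpi := Real.pi_pos
  refine ⟨(Real.pi + 1 + 2 * A + 1 + Pool.Agent.W688.GF.cS) + (|Real.log c| + C + 1), 2 + 2 * A,
    by linarith [abs_nonneg (Real.log c)], by linarith, ?_⟩
  intro t ht
  have ht0 : 0 < t := by linarith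
  constructor
  · have h1 := lower hA (t := t) (by linarith)
    have h2 : ‖Hg c A (I * t)‖ = ‖Complex.Gamma (I * t + A)‖ := by
      unfold Hg
      rw [norm_mul, norm_cpow_eq_rpow_re_of_pos hc]
      simp
    rw [h2]
    refine le_trans (Real.exp_le_exp.2 ?_) h1
    nlinarith [abs_nonneg (Real.log c)]
  · intro u hu
    have hre := abs_re_le_norm u
    have him := abs_im_le_norm u
    rw [abs_le] at hre him
    have e1 : (I * t + u).im = t + u.im := by simp
    have e2 : (I * t + u + A).im = t + u.im := by simp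
    have e3 : (I * t + u + A).re = u.re + A := by simp
    have himp : 0 < t + u.im := by linarith
    have hne : (I * t + u).im ≠ 0 := by rw [e1]; exact himp.ne'
    refine ⟨(Hg_hd hc hne).differentiableAt, Hg_ne hc hne, ?_⟩
    rw [Hg_ld hc hne]
    have h1 := hC (I * t + u + A) (by rw [e2, abs_of_pos himp]; linarith) (by
      rw [e2, e3, abs_of_pos himp, abs_le]
      constructor <;> linarith)
    rw [e2, abs_of_pos himp] at h1
    have h2 := log_near (x := t + u.im) ht0 (by linarith) (by linarith)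
    have e4 : (Real.log c : ℂ) + logDeriv Complex.Gamma (I * t + u + A) - (Real.log t : ℂ) =
        ((Real.log c : ℝ) : ℂ) + (logDeriv Complex.Gamma (I * t + u + A) - (Real.log (t + u.im) : ℂ)) +
        ((Real.log (t + u.im) - Real.log t : ℝ) : ℂ) := by
      push_cast
      ring
    rw [e4]
    refine (norm_add_le _ _).trans ?_
    refine (add_le_add_left (norm_add_le _ _) _).trans ?_
    rw [norm_real, norm_real, Real.norm_eq_abs, Real.norm_eq_abs]
    linarith

end Pool.Agent.Y494.GL
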